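import Pool.Agent.helper55.RI.Spec

/-!
Project ri, module B4: assembly of the theorem of Berman and Hartmanis.
-/

set_option autoImplicit false

namespace Pool.Agent.RI

open Pool.Agent.helper62 Prog Function Pool.Agent.helper81.PL

theorem B4 (hK2 : K2_stmt) (hK3 : K3_stmt) (hB1 : B1_stmt) (hB2 : B2_stmt) (hB3 : B3_stmt) :
    B4_stmt := by
  intro A hA he
  obtain ⟨e₁, m₁, he₁, hm₁, hme₁, hl₁, hA₁⟩ := hB3 A he
  obtain ⟨a, ha⟩ := hK2.1 A hA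
  obtain ⟨hpre, _, hlen, strip, hs, hsp⟩ := hK3
  have he₂ : PT (pre a) :=
    PT.comp (g := fun p : ℕ × W => pre p.1 p.2) (f := fun y : W => (a, y)) hpre
      (PT.pair (PT.const a) PT.id)
  have hl₂ : ∀ x : W, x.length < (pre a x).length := by
    intro x
    rw [hlen]
    omega
  obtain ⟨h1, h2, h3⟩ := hB1 KS A e₁ m₁ (pre a) strip hme₁ (fun x => hsp a x) hl₁ hl₂ hA₁ ha
  obtain ⟨h4, h5⟩ := hB2 e₁ m₁ (pre a) strip he₁ hm₁ he₂ hs hl₁ hl₂
  exact ⟨bhh e₁ m₁ (pre a) strip, bhg e₁ m₁ (pre a) strip, h4, h5, h1, h2, h3⟩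

end Pool.Agent.RI
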