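import Pool.Agent.helper55.RI.Spec

/-!
Project ri, module F4: a nonempty paddable subset of the range of `f` gives a function with
polynomial time inverse whose range is contained in the range of `f`.
-/

set_option autoImplicit false

namespace Pool.Agent.RI

open Pool.Agent.helper62 Prog Function Pool.Agent.helper81.PL

theorem F4_drop (x y : W) : (pr x y).drop (2 * x.length + 1) = y := by
  have h : pr x y = (List.replicate x.length true ++ false :: x) ++ y := by
    unfold pr
    simp
  rw [h]
  apply List.drop_left'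
  simp
  omega

theorem F4 (hF1 : F1_stmt) : F4_stmt := by
  intro f hL
  obtain ⟨L, hLf, ⟨x₀, hx₀⟩, q, r, hq, hr, hrq, hpad⟩ := hL
  have hPT := hF1.1
  have hpr : PT (pr x₀) := by
    have h : PT (fun y : W => List.replicate x₀.length true ++ false :: (x₀ ++ y)) := by fun_prop
    exact h
  have hdrop : PT (fun w : W => w.drop (2 * x₀.length + 1)) := by fun_prop
  refine ⟨fun y => q (pr x₀ y), ⟨?_, fun w => (r w).drop (2 * x₀.length + 1), ?_, ?_⟩, ?_⟩
  · exact (hPT _).mpr (PT.comp ((hPT q).mp hq) hpr)
  · exact (hPT _).mpr (PT.comp hdrop ((hPT r).mp hr))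
  · intro y
    show (r (q (pr x₀ y))).drop (2 * x₀.length + 1) = y
    rw [hrq, F4_drop]
  · rintro _ ⟨y, rfl⟩
    exact hLf ((hpad x₀ y).mpr hx₀)

end Pool.Agent.RI
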